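import Pool.Agent.H24.S6D.LxS
import Pool.Agent.H80.S6C.UvcC

/-!
# LEMMA X, class half, (LXF): the own slopes are known from two windows on most of the event
-/

set_option autoImplicit false

namespace Pool.S6V

open Finset Real
open Pool.Agent.H49.Ent Pool.Agent.H32.Dense Pool.STK Pool.KA Pool.KSAT Pool.K2S Pool.PB Pool.KS6
  Pool.S6C Pool.S6U

/-- One window: on the spread samples the own slope is close to the slope of the window. -/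
theorem lxf_win {J : ℕ} {F : Fam 3 J} {A : F.Ω → Prop} {i₀ : Fin 3} {w : ℚ} {rw ε C : ℝ}
    {ς : Fin 3 → Fin 3} (hς0 : ς 0 = i₀) {al : F.Ω → ℝ} {L q c₀ : ℕ}
    (hε0 : 0 < ε) (hc₀ : 8 * C ≤ 2 ^ c₀) (hcap : capS 1 (qRot i₀ 1 w) (rw - ε) J F A)
    (hfa' : ∃ φ : (Fin 3 → ℤ) × (ℕ × F.ζ) → ℝ, ∀ ω, A ω → al ω = φ (Fam.pt F ω))
    (hnu' : ∃ nu : (Fin 3 → ℤ) × (ℕ × F.ζ) → ℝ, ∀ ω, A ω →
      |F.d ω (ς 1) - al ω * F.d ω (ς 0) - nu (Fam.pt F ω)| ≤ C / 2 ^ L)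
    (hq2 : (q : ℝ) < ε * J + 1) (hJ : (c₀ : ℝ) + 10 < ε * J)
    (E : ℕ) (hEL : (E : ℝ) + 4 * ε * J ≤ L) (hEr : (E : ℝ) + 4 * ε * J ≤ rw * J) :
    ∃ ζ : ((Fin 3 → ℝ) × (Fin 3 → ℝ)) × F.ζ × ℕ → ℝ, ∀ ω, Pool.S6C.Uvc.Spd F i₀ q A ω →
      |al ω - ζ (slam F ⌊(w : ℝ) * J⌋₊ ω)| ≤ 1 / 2 ^ E := by
  classical
  obtain ⟨fa, hfa⟩ := hfa'
  obtain ⟨nu, hnu⟩ := hnu'
  have hc0 : (0 : ℝ) ≤ c₀ := Nat.cast_nonneg c₀
  have hE0 : (0 : ℝ) ≤ E := Nat.cast_nonneg E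
  have hJ0 : (0 : ℝ) < J := by
    by_contra hcon
    push Not at hcon
    have : ε * J ≤ 0 := mul_nonpos_of_nonneg_of_nonpos hε0.le hcon
    linarith
  rcases hcap with d1 | ⟨-, e, n, ζ, h1, h2⟩
  · exfalso
    have : rw * J ≤ ε * J := mul_le_mul_of_nonneg_right (by linarith) hJ0.le
    linarith
  rw [ptq_one F] at h1 h2
  obtain ⟨l, hl⟩ : ∃ l, l = ⌊(rw - ε) * J⌋₊ := ⟨_, rfl⟩
  rw [← hl] at h1 h2
  have hl1 : (rw - ε) * J < l + 1 := by rw [hl]; exact Nat.lt_floor_add_one _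
  have g1 : E + c₀ + q + 1 ≤ L := by
    have : ((E + c₀ + q + 1 : ℕ) : ℝ) ≤ L := by
      push_cast
      linarith
    exact_mod_cast this
  have g2 : E + q + 4 ≤ l := by
    have : ((E + q + 4 : ℕ) : ℝ) < l + 1 := by
      push_cast
      linarith
    have : E + q + 4 < l + 1 := by exact_mod_cast this
    omega
  refine ⟨fun s => ζ s (ς 1), fun ω hω => ?_⟩
  obtain ⟨hAω, ω', ω'', b1, b2, b3, b4, b5⟩ := hω
  have a1 := hnu ω' b1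
  have a2 := hnu ω'' b2
  have a3 := h1 ω' b1 (ς 1)
  have a4 := h1 ω'' b2 (ς 1)
  rw [hfa ω' b1, b3, ← hfa ω hAω] at a1
  rw [hfa ω'' b2, b4, ← hfa ω hAω] at a2
  rw [b3] at a3
  rw [b4] at a4
  rw [hς0] at a1 a2
  have a5 := frame_close (U := ℕ) (d := F.d) a3 a4 a1 a2 (by positivity) b5
  have a6 := h2 ω hAω (ς 1)
  have c1 : (1 : ℝ) / 2 ^ l ≤ 1 / 2 ^ (E + q + 4) := inv_mono g2
  have c2 : C / 2 ^ L ≤ 1 / 8 * (1 / 2 ^ (E + q + 1)) := by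
    have m1 : (2 : ℝ) ^ (E + q + 1 + c₀) ≤ 2 ^ L := pow_le_pow_right₀ (by norm_num) (by omega)
    rw [pow_add] at m1
    rw [div_le_iff₀ (by positivity)]
    have m2 : (1 : ℝ) / 8 * (1 / 2 ^ (E + q + 1)) * (2 ^ (E + q + 1) * 2 ^ c₀) ≤
        1 / 8 * (1 / 2 ^ (E + q + 1)) * 2 ^ L := mul_le_mul_of_nonneg_left m1 (by positivity)
    have m3 : (1 : ℝ) / 8 * (1 / 2 ^ (E + q + 1)) * (2 ^ (E + q + 1) * 2 ^ c₀) =
        1 / 8 * 2 ^ c₀ := by field_simp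
    linarith
  have c3 : (1 : ℝ) / 2 ^ (E + q + 4) = 1 / 8 * (1 / 2 ^ (E + q + 1)) := by
    rw [show E + q + 4 = (E + q + 1) + 3 by ring, pow_add 2 (E + q + 1) 3]
    field_simp
    norm_num
  have c4 : (1 : ℝ) / 2 ^ (E + q + 1) = 1 / 2 ^ E * (1 / 2 ^ (q + 1)) := by
    rw [show E + q + 1 = E + (q + 1) by ring, pow_add]
    field_simp
  have c5 : (2 * (1 / 2 ^ l) + 2 * (C / 2 ^ L)) / (1 / 2 ^ (q + 1)) ≤ 1 / 2 * (1 / 2 ^ E) := by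
    rw [div_le_iff₀ (by positivity)]
    rw [c3, c4] at c1
    rw [c4] at c2
    linarith
  have c6 : (1 : ℝ) / 2 ^ l ≤ 1 / 2 * (1 / 2 ^ E) := by
    have m1 : (1 : ℝ) / 2 ^ l ≤ 1 / 2 ^ (E + 1) := inv_mono (by omega)
    have m2 : (1 : ℝ) / 2 ^ (E + 1) = 1 / 2 * (1 / 2 ^ E) := by
      rw [pow_succ]
      field_simp
    linarith
  have c7 := abs_sub_le (al ω) (e (Fam.pt F ω) (ς 1)) (ζ (slam F ⌊(w : ℝ) * J⌋₊ ω) (ς 1))
  linarith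

/-- **(LXF)** The own slopes are known from the windows `x` and `y` on most of the event. -/
theorem lxf_thm : LxFStmt := by
  intro S a₁ R h₁ i₀ c s₂ r D₀ σ hC x y hx0 hx1 hy0 hy1 ε ϖ C hε hϖ hC1
  classical
  have hh₁ := hC.h₁0
  obtain ⟨e', he'⟩ : ∃ e', e' = min (ε / 4) (min (h₁ / 8) (1 / 8)) := ⟨_, rfl⟩
  have he0 : 0 < e' := by
    rw [he']
    exact lt_min (by linarith) (lt_min (by linarith) (by norm_num))
  have heε : e' ≤ ε / 4 := by rw [he']; exact min_le_left _ _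
  have heh : e' ≤ h₁ / 8 := by rw [he']; exact (min_le_right _ _).trans (min_le_left _ _)
  have he1 : e' ≤ 1 / 8 := by rw [he']; exact (min_le_right _ _).trans (min_le_right _ _)
  obtain ⟨c₀, hc₀⟩ : ∃ c₀ : ℕ, 8 * C ≤ 2 ^ c₀ := by
    obtain ⟨n, hn⟩ := exists_nat_gt (8 * C)
    exact ⟨n, hn.le.trans (by exact_mod_cast (Nat.lt_two_pow_self (n := n)).le)⟩
  have hrow := hC.row 1 one_pos le_rfl hC.D1
  have k1 := (hrow.rot x hx0 hx1).1 e' he0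
  have k1' := (hrow.rot y hy0 hy1).1 e' he0
  have k2 := Pool.S6C.Uvc.spread_big hC.a1 hC.R0 hC.ub hC.st hC.lb he0 hϖ
  obtain ⟨J₃, hJ₃⟩ := exists_nat_gt (((c₀ : ℝ) + 10) / e')
  refine Clp.mono (J₂ := J₃) ((k1.and k1').and k2) ?_
  rintro J hJ F A ⟨⟨d1, d1'⟩, d2⟩ ς _ hς0 al L hfa hnu
  have hJr : ((c₀ : ℝ) + 10) / e' < J := hJ₃.trans_le (by exact_mod_cast hJ)
  have r1 : (c₀ : ℝ) + 10 < e' * J := by
    rw [div_lt_iff₀ he0] at hJr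
    linarith
  have hc0 : (0 : ℝ) ≤ c₀ := Nat.cast_nonneg c₀
  have hJ0 : (0 : ℝ) < J := by
    by_contra hcon
    push Not at hcon
    have : e' * J ≤ 0 := mul_nonpos_of_nonneg_of_nonpos he0.le hcon
    linarith
  obtain ⟨q, hq⟩ : ∃ q, q = ⌈e' * J⌉₊ := ⟨_, rfl⟩
  have hq1 : e' * J ≤ q := by rw [hq]; exact Nat.le_ceil _
  have hq2 : (q : ℝ) < e' * J + 1 := by
    rw [hq]
    exact Nat.ceil_lt_add_one (by positivity)
  have hqJ : q ≤ J := by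
    have : (q : ℝ) ≤ J := by
      have : e' * J ≤ 1 / 8 * J := mul_le_mul_of_nonneg_right he1 hJ0.le
      linarith
    exact_mod_cast this
  have hqh : q + 2 ≤ ⌊h₁ * J⌋₊ := by
    refine Nat.le_floor ?_
    push_cast
    have : e' * J ≤ h₁ / 8 * J := mul_le_mul_of_nonneg_right heh hJ0.le
    linarith
  have h4 : 4 * e' * J ≤ ε * J := by
    have := mul_le_mul_of_nonneg_right heε hJ0.le
    linarith
  refine ⟨Pool.S6C.Uvc.Spd F i₀ q A, fun ω hω => hω.1, d2 q hqJ hq1 hqh, ?_⟩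
  rintro w (rfl | rfl) E hEL hEr
  · exact lxf_win hς0 he0 hc₀ d1 hfa hnu hq2 r1 E (by linarith) (by linarith)
  · exact lxf_win hς0 he0 hc₀ d1' hfa hnu hq2 r1 E (by linarith) (by linarith)

end Pool.S6V
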